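import Mathlib
import Pool.Agent.Helper50.TruncPent.Defs
import Pool.Agent.Helper50.TruncPent.Final

set_option autoImplicit false

namespace Pool.Agent.Results.MP_f836a2_nt.SignPattern

open PowerSeries Pool.Agent.Helper50.TruncPent

/-- **Complete sign pattern of the coefficients of `F_k`.**
For every `k ≥ 2` the coefficient `c_k(n)` vanishes for `n < N_k` and `n = N_k + 1`, and is
positive for `n = N_k` and all `n ≥ N_k + 2`. For `k = 1` the coefficient `c_1(n)` vanishes exactly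
for `n = 0, 1, 3, 5, 7, 9` and is positive otherwise; hence the posed pattern fails for `k = 1`,
at exactly the three places `n = 5, 7, 9`, and only there. -/
theorem result :
    (∀ k : ℕ, 2 ≤ k → ∀ n : ℕ,
      ((n < N k ∨ n = N k + 1) → coeff n (F k) = 0) ∧
      ((n = N k ∨ N k + 2 ≤ n) → 0 < coeff n (F k))) ∧
    (∀ n : ℕ,
      ((n = 0 ∨ n = 1 ∨ n = 3 ∨ n = 5 ∨ n = 7 ∨ n = 9) → coeff n (F 1) = 0) ∧
      (¬ (n = 0 ∨ n = 1 ∨ n = 3 ∨ n = 5 ∨ n = 7 ∨ n = 9) → 0 < coeff n (F 1))) ∧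
    ¬ (∀ k : ℕ, 1 ≤ k → ∀ n : ℕ,
      ((n < N k ∨ n = N k + 1) → coeff n (F k) = 0) ∧
      ((n = N k ∨ N k + 2 ≤ n) → 0 < coeff n (F k))) := by
  have h1 := main_one
  refine ⟨?_, h1, ?_⟩
  · intro k hk n
    have h := main_two k hk n
    refine ⟨h.1, fun hn => h.2 ?_⟩
    unfold Zk
    omega
  · intro hc
    have h5 := (hc 1 le_rfl 5).2 (Or.inr (by decide))
    have h5' := (h1 5).1 (by unfold Z1; omega)
    omega

end Pool.Agent.Results.MP_f836a2_nt.SignPattern
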